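import Pool.Agent.Work.MP_918064_lc.Graph
import Pool.Agent.Work.PT.Serial
import Pool.Agent.Work.PT.Fpt
import Pool.Agent.Work.PT.Bridge

/-!
# List algorithms on adjacency matrices
-/

set_option autoImplicit false

namespace Pool.Agent.MP918064

open Pool.Agent.PT

/-- Adjacency read off from the adjacency matrix. -/
def adjM (M : List (List Bool)) (u v : ℕ) : Bool := (M.getD u []).getD v false

/-- Adding the neighbours of a set of vertices. -/
def grow (M : List (List Bool)) (B : List ℕ) : List ℕ :=
  (List.range M.length).filter (fun v => decide (v ∈ B) || B.any (fun w => adjM M w v))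

/-- The list of the vertices at distance at most `r` from `u`. -/
def ball (M : List (List Bool)) (u : ℕ) : ℕ → List ℕ
  | 0 => (List.range M.length).filter (fun v => decide (v = u))
  | r + 1 => grow M (ball M u r)

/-- The non-isolated vertices. -/
def nonIso (M : List (List Bool)) : List ℕ :=
  (List.range M.length).filter (fun u => (List.range M.length).any (fun w => adjM M u w))

theorem ptf_grow : PTF (fun p : List (List Bool) × List ℕ => grow p.1 p.2) := by
  unfold grow adjM; fun_prop

theorem ptf_ball (r : ℕ) : PTF (fun p : List (List Bool) × ℕ => ball p.1 p.2 r) := by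
  induction r with
  | zero => unfold ball; fun_prop
  | succ r ih => exact ptf_grow.comp (PTF.fst.pair ih)

theorem ptf_nonIso : PTF nonIso := by unfold nonIso adjM; fun_prop

/-- One vertex for every ball around a non-isolated vertex. -/
def reps (r : ℕ) (M : List (List Bool)) : List ℕ :=
  (nonIso M).filter (fun u => (nonIso M).all (fun w => decide (u ≤ w) ||
    decide (ball M w r ≠ ball M u r)))

theorem ptf_reps (r : ℕ) : PTF (reps r) := by
  have h1 := ptf_ball r
  have h2 := ptf_nonIso
  have h3 : PTF (fun q : (List (List Bool) × ℕ) × ℕ => ball q.1.1 q.2 r) :=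
    h1.comp ((PTF.fst.comp PTF.fst).pair PTF.snd)
  have h4 : PTF (fun q : (List (List Bool) × ℕ) × ℕ => ball q.1.1 q.1.2 r) :=
    h1.comp ((PTF.fst.comp PTF.fst).pair (PTF.snd.comp PTF.fst))
  unfold reps
  fun_prop

/-- The sublist selected by the binary digits of a number (reversed). -/
def select (j : ℕ) (L : List ℕ) : List ℕ :=
  (L.foldl (fun s x => (s.1 / 2, if s.1 % 2 = 1 then x :: s.2 else s.2)) (j, ([] : List ℕ))).2

theorem ptf_select : PTF (fun p : ℕ × List ℕ => select p.1 p.2) := by
  have h := PTF.foldl_add (l := fun p : ℕ × List ℕ => p.2)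
    (init := fun p : ℕ × List ℕ => (p.1, ([] : List ℕ)))
    (step := fun q : (ℕ × List ℕ) × ((ℕ × List ℕ) × ℕ) => (q.2.1.1 / 2,
      if q.2.1.1 % 2 = 1 then q.2.2 :: q.2.1.2 else q.2.1.2)) (by fun_prop) (by fun_prop)
    (by fun_prop) (fun p => sz p.2 + 1) ((PTF.size PTF.snd).add (PB.const 1))
    (fun a s b hb => by
      have h1 := sz_le_of_mem hb
      obtain ⟨j, L⟩ := s
      show sz (j / 2, if j % 2 = 1 then b :: L else L) ≤ _
      rw [sz_pair, sz_pair, sz_nat, sz_nat]
      split_ifs
      · rw [sz_cons]; omega
      · omega)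
  exact PTF.snd.comp h

/-- All subsets are selected. -/
theorem exists_select (p : ℕ → Bool) (L : List ℕ) :
    ∃ j < 2 ^ L.length, select j L = (L.filter p).reverse := by
  have key : ∀ L : List ℕ, ∃ j < 2 ^ L.length, ∀ acc : List ℕ,
      (L.foldl (fun s x => (s.1 / 2, if s.1 % 2 = 1 then x :: s.2 else s.2)) (j, acc)).2 =
        (L.filter p).reverse ++ acc := by
    intro L
    induction L with
    | nil => exact ⟨0, by simp, fun acc => by simp⟩
    | cons x L ih =>
      obtain ⟨j, hj, h⟩ := ih
      by_cases hx : p x = true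
      · refine ⟨2 * j + 1, by rw [List.length_cons, pow_succ]; omega, fun acc => ?_⟩
        rw [List.foldl_cons]
        have e1 : (2 * j + 1) / 2 = j := by omega
        have e2 : (2 * j + 1) % 2 = 1 := by omega
        simp only [e1, e2, if_true]
        rw [h, List.filter_cons_of_pos hx]
        simp
      · refine ⟨2 * j, by rw [List.length_cons, pow_succ]; omega, fun acc => ?_⟩
        rw [List.foldl_cons]
        have e1 : (2 * j) / 2 = j := by omega
        have e2 : ¬ (2 * j) % 2 = 1 := by omega
        simp only [e1, e2, if_false]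
        rw [h, List.filter_cons_of_neg hx]
  obtain ⟨j, hj, h⟩ := key L
  exact ⟨j, hj, by rw [select, h]; simp⟩

theorem mem_select {x : ℕ} (L : List ℕ) {j : ℕ} (h : x ∈ select j L) : x ∈ L := by
  have key : ∀ (L : List ℕ) (s : ℕ × List ℕ),
      x ∈ (L.foldl (fun s x => (s.1 / 2, if s.1 % 2 = 1 then x :: s.2 else s.2)) s).2 →
        x ∈ L ∨ x ∈ s.2 := by
    intro L
    induction L with
    | nil => intro s h; exact Or.inr h
    | cons y L ih =>
      intro s h
      rw [List.foldl_cons] at h
      rcases ih _ h with h | h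
      · exact Or.inl (List.mem_cons_of_mem _ h)
      · simp only at h
        split_ifs at h
        · rcases List.mem_cons.1 h with h | h
          · left; rw [h]; exact List.mem_cons_self ..
          · exact Or.inr h
        · exact Or.inr h
  rcases key L _ h with h | h
  · exact h
  · simp at h

/-- Input of the algorithms: `ℓ`, the modulator and the adjacency matrix. -/
abbrev Inp : Type := ℕ × (List Bool × List (List Bool))

/-- Test whether the `j`-th family of balls is a solution. -/
def check (r : ℕ) (a : Inp) (j : ℕ) : Bool :=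
  (nonIso a.2.2).all (fun v => (select j (reps r a.2.2)).any (fun u =>
    decide (v ∈ ball a.2.2 u r))) &&
  decide ((select j (reps r a.2.2)).length + (a.2.2.length - (nonIso a.2.2).length) ≤ a.1)

/-- The brute-force algorithm over the families of balls. -/
def answer (r : ℕ) (p : Inp × ℕ) : Bool := (List.range p.2).any (fun j => check r p.1 j)

theorem ptf_answer (r : ℕ) : PTF (answer r) := by
  have h1 : PTF (fun q : ((Inp × ℕ) × ℕ) => select q.2 (reps r q.1.1.2.2)) :=
    ptf_select.comp (PTF.snd.pair ((ptf_reps r).comp (by fun_prop)))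
  have h2 : PTF (fun q : ((Inp × ℕ) × ℕ) => nonIso q.1.1.2.2) :=
    ptf_nonIso.comp (by fun_prop)
  have h3 : PTF (fun q : ((((Inp × ℕ) × ℕ) × ℕ) × ℕ) => ball q.1.1.1.1.2.2 q.2 r) :=
    (ptf_ball r).comp (PTF.pair (by fun_prop) PTF.snd)
  have h4 : PTF (fun q : (((Inp × ℕ) × ℕ) × ℕ) => select q.1.2 (reps r q.1.1.1.2.2)) :=
    h1.comp PTF.fst
  unfold answer check
  fun_prop

end Pool.Agent.MP918064
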