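import Pool.Agent.Work.MP_918064_lc.Alg

/-!
# Correctness of the list algorithms
-/

set_option autoImplicit false

namespace Pool.Agent.MP918064

open Pool.Agent.PT

section
variable {n : ℕ} (G : SimpleGraph (Fin n))

theorem length_adjMatrix : (adjMatrix G).length = n := by simp [adjMatrix]

theorem adjM_iff (u v : ℕ) : adjM (adjMatrix G) u v = true ↔
    ∃ (hu : u < n) (hv : v < n), G.Adj ⟨u, hu⟩ ⟨v, hv⟩ := by
  classical
  unfold adjM adjMatrix
  rw [List.getD_eq_getElem?_getD, List.getD_eq_getElem?_getD, List.getElem?_ofFn]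
  by_cases hu : u < n
  · rw [dif_pos hu, Option.getD_some, List.getElem?_ofFn]
    by_cases hv : v < n
    · rw [dif_pos hv, Option.getD_some, decide_eq_true_iff]
      exact ⟨fun h => ⟨hu, hv, h⟩, fun ⟨_, _, h⟩ => h⟩
    · rw [dif_neg hv]
      simp [hv]
  · rw [dif_neg hu]
    simp [hu]

theorem mem_ball {r u v : ℕ} (hu : u < n) : v ∈ ball (adjMatrix G) u r ↔
    ∃ hv : v < n, Near G r ⟨u, hu⟩ ⟨v, hv⟩ := by
  induction r generalizing v with
  | zero =>
    simp only [ball, List.mem_filter, List.mem_range, length_adjMatrix, decide_eq_true_eq]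
    constructor
    · rintro ⟨hv, rfl⟩; exact ⟨hv, near_refl G 0 _⟩
    · rintro ⟨hv, h⟩
      rw [near_zero] at h
      exact ⟨hv, (congrArg Fin.val h).symm⟩
  | succ r ih =>
    simp only [ball, grow, List.mem_filter, List.mem_range, length_adjMatrix, Bool.or_eq_true,
      decide_eq_true_eq, List.any_eq_true]
    constructor
    · rintro ⟨hv, h | ⟨w, hw, hwv⟩⟩
      · obtain ⟨_, h⟩ := ih.1 h
        exact ⟨hv, h.mono G (Nat.le_succ r)⟩
      · obtain ⟨hw', h⟩ := ih.1 hw
        obtain ⟨_, _, h'⟩ := (adjM_iff G w v).1 hwv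
        exact ⟨hv, (near_succ' G).2 (Or.inr ⟨_, h, h'⟩)⟩
    · rintro ⟨hv, h⟩
      refine ⟨hv, ?_⟩
      rcases (near_succ' G).1 h with h | ⟨w, hw, hwv⟩
      · exact Or.inl (ih.2 ⟨hv, h⟩)
      · exact Or.inr ⟨w, ih.2 ⟨w.2, hw⟩, (adjM_iff G w v).2 ⟨w.2, hv, hwv⟩⟩

theorem ball_eq_filter (M : List (List Bool)) (u r : ℕ) :
    ball M u r = (List.range M.length).filter (fun v => decide (v ∈ ball M u r)) := by
  have key : ∀ (p : ℕ → Bool), (List.range M.length).filter p =
      (List.range M.length).filter (fun v => decide (v ∈ (List.range M.length).filter p)) := by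
    intro p
    apply List.filter_congr
    intro x hx
    rw [Bool.eq_iff_iff, decide_eq_true_iff, List.mem_filter]
    exact ⟨fun h => ⟨hx, h⟩, fun h => h.2⟩
  cases r with
  | zero => exact key _
  | succ r => exact key _

theorem ball_eq_iff {r u u' : ℕ} (hu : u < n) (hu' : u' < n) :
    ball (adjMatrix G) u r = ball (adjMatrix G) u' r ↔
      ∀ v, Near G r ⟨u, hu⟩ v ↔ Near G r ⟨u', hu'⟩ v := by
  constructor
  · intro h v
    have h1 := mem_ball G (r := r) (v := v) hu
    have h2 := mem_ball G (r := r) (v := v) hu'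
    rw [h] at h1
    constructor
    · intro h3; exact (h2.1 (h1.2 ⟨v.2, h3⟩)).2
    · intro h3; exact (h1.1 (h2.2 ⟨v.2, h3⟩)).2
  · intro h
    rw [ball_eq_filter, ball_eq_filter (adjMatrix G) u']
    apply List.filter_congr
    intro v hv
    rw [decide_eq_decide, mem_ball G hu, mem_ball G hu']
    exact exists_congr (fun hv => h _)

theorem mem_nonIso {u : ℕ} : u ∈ nonIso (adjMatrix G) ↔ ∃ hu : u < n, NonIso G ⟨u, hu⟩ := by
  simp only [nonIso, List.mem_filter, List.mem_range, length_adjMatrix, List.any_eq_true,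
    adjM_iff]
  constructor
  · rintro ⟨hu, w, hw, _, hw', h⟩; exact ⟨hu, ⟨w, hw'⟩, h⟩
  · rintro ⟨hu, w, hw⟩; exact ⟨hu, w, w.2, hu, w.2, hw⟩

theorem nodup_nonIso (M : List (List Bool)) : (nonIso M).Nodup :=
  List.nodup_range.filter _

theorem nodup_reps (r : ℕ) (M : List (List Bool)) : (reps r M).Nodup :=
  (nodup_nonIso M).filter _

theorem exists_rep (r : ℕ) (M : List (List Bool)) (s : ℕ) (hs : s ∈ nonIso M) :
    ∃ u ∈ reps r M, ball M u r = ball M s r := by
  induction s using Nat.strong_induction_on with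
  | _ s ih =>
    by_cases h : s ∈ reps r M
    · exact ⟨s, h, rfl⟩
    · unfold reps at h
      rw [List.mem_filter] at h
      simp only [hs, true_and, List.all_eq_true, Bool.or_eq_true, decide_eq_true_eq,
        not_forall, not_or] at h
      obtain ⟨w, hw, h1, h2⟩ := h
      push Not at h1
      obtain ⟨u, hu, hu'⟩ := ih w h1 hw
      exact ⟨u, hu, by rw [hu']; exact not_not.1 h2⟩

theorem reps_inj {r : ℕ} {M : List (List Bool)} {u u' : ℕ} (hu : u ∈ reps r M)
    (hu' : u' ∈ reps r M) (h : ball M u r = ball M u' r) : u = u' := by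
  unfold reps at hu hu'
  rw [List.mem_filter] at hu hu'
  simp only [List.all_eq_true, Bool.or_eq_true, decide_eq_true_eq] at hu hu'
  have h1 := hu.2 u' hu'.1
  have h2 := hu'.2 u hu.1
  rcases h1 with h1 | h1
  · rcases h2 with h2 | h2
    · omega
    · exact absurd h h2
  · exact absurd h.symm h1

open Classical in
theorem length_nonIso : (nonIso (adjMatrix G)).length =
    (Finset.univ.filter (fun v => NonIso G v)).card := by
  rw [← List.toFinset_card_of_nodup (nodup_nonIso _),
    ← Finset.card_map Fin.valEmbedding]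
  congr 1
  ext u
  rw [List.mem_toFinset, mem_nonIso, Finset.mem_map]
  constructor
  · rintro ⟨hu, h⟩; exact ⟨⟨u, hu⟩, by simp [h], rfl⟩
  · rintro ⟨v, hv, rfl⟩; exact ⟨v.2, by simpa using hv⟩

open Classical in
theorem card_iso : n - (nonIso (adjMatrix G)).length =
    (Finset.univ.filter (fun v => ¬ NonIso G v)).card := by
  have := Finset.card_filter_add_card_filter_not (s := (Finset.univ : Finset (Fin n)))
    (fun v => NonIso G v)
  rw [Finset.card_univ, Fintype.card_fin] at this
  rw [length_nonIso]
  omega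

theorem exists_check_iff (r l : ℕ) (xs : List Bool) :
    (∃ j < 2 ^ (reps r (adjMatrix G)).length, check r (l, (xs, adjMatrix G)) j = true) ↔
      ∃ S : Finset (Fin n), S.card ≤ l ∧ IsRDom G r S := by
  classical
  unfold check
  simp only [Bool.and_eq_true, List.all_eq_true, List.any_eq_true, decide_eq_true_eq,
    length_adjMatrix]
  rw [card_iso]
  constructor
  · rintro ⟨j, -, h1, h2⟩
    set sel := select j (reps r (adjMatrix G)) with hsel
    set A : Finset (Fin n) := Finset.univ.filter (fun v => (v : ℕ) ∈ sel) with hA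
    set B : Finset (Fin n) := Finset.univ.filter (fun v => ¬ NonIso G v) with hB
    have hAc : A.card ≤ sel.length := by
      rw [← Finset.card_map Fin.valEmbedding]
      refine (Finset.card_le_card (t := sel.toFinset) ?_).trans (List.toFinset_card_le _)
      intro x hx
      rw [Finset.mem_map] at hx
      obtain ⟨v, hv, rfl⟩ := hx
      rw [List.mem_toFinset]
      simpa [hA] using hv
    refine ⟨A ∪ B, (Finset.card_union_le _ _).trans (by omega), fun v => ?_⟩
    by_cases hv : NonIso G v
    · obtain ⟨u, hu, hv'⟩ := h1 v ((mem_nonIso G).2 ⟨v.2, hv⟩)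
      have hu' : u < n := by
        have := mem_select _ hu
        unfold reps at this
        exact ((mem_nonIso G).1 (List.mem_filter.1 this).1).1
      obtain ⟨_, h3⟩ := (mem_ball G hu').1 hv'
      exact ⟨⟨u, hu'⟩, Finset.mem_union_left _ (by simp [hA, hu]), (near_comm G).1 h3⟩
    · exact ⟨v, Finset.mem_union_right _ (by simp [hB, hv]), near_refl G r v⟩
  · rintro ⟨S, hS1, hS2⟩
    -- representatives of the balls of `S`
    obtain ⟨j, hj, hj'⟩ := exists_select (fun u => decide (∃ s ∈ S, NonIso G s ∧
      ball (adjMatrix G) s r = ball (adjMatrix G) u r)) (reps r (adjMatrix G))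
    refine ⟨j, hj, ?_, ?_⟩
    · intro v hv
      obtain ⟨hv', hv''⟩ := (mem_nonIso G).1 hv
      obtain ⟨s, hs, hvs⟩ := hS2 ⟨v, hv'⟩
      have hsn : NonIso G s := Near.nonIso G (r := r) hvs hv''
      obtain ⟨u, hu, hu'⟩ := exists_rep r (adjMatrix G) s ((mem_nonIso G).2 ⟨s.2, hsn⟩)
      refine ⟨u, ?_, ?_⟩
      · rw [hj', List.mem_reverse, List.mem_filter]
        exact ⟨hu, by rw [decide_eq_true_iff]; exact ⟨s, hs, hsn, hu'.symm⟩⟩
      · rw [hu']
        exact (mem_ball G s.2).2 ⟨hv', (near_comm G).1 hvs⟩
    · -- count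
      have h1 : (select j (reps r (adjMatrix G))).length ≤
          (S.filter (fun v => NonIso G v)).card := by
        rw [hj', List.length_reverse,
          ← List.toFinset_card_of_nodup ((nodup_reps r _).filter _)]
        have hch : ∀ u ∈ ((reps r (adjMatrix G)).filter (fun u => decide (∃ s ∈ S, NonIso G s ∧
            ball (adjMatrix G) s r = ball (adjMatrix G) u r))).toFinset,
            ∃ s : Fin n, s ∈ S ∧ NonIso G s ∧
              ball (adjMatrix G) s r = ball (adjMatrix G) u r := by
          intro u hu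
          rw [List.mem_toFinset, List.mem_filter, decide_eq_true_iff] at hu
          obtain ⟨s, h1, h2, h3⟩ := hu.2
          exact ⟨s, h1, h2, h3⟩
        rcases isEmpty_or_nonempty (Fin n) with he | hne
        · rw [Finset.card_eq_zero.2 (Finset.eq_empty_of_forall_notMem
            (fun u hu => (hch u hu).elim (fun s _ => he.elim s)))]
          exact Nat.zero_le _
        choose! f hf using hch
        refine Finset.card_le_card_of_injOn f (fun u hu => ?_) (fun u hu u' hu' h => ?_)
        · have := hf u hu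
          simp [this.1, this.2.1]
        · have h3 := (hf u hu).2.2
          have h4 := (hf u' hu').2.2
          rw [h] at h3
          have hm : u ∈ reps r (adjMatrix G) :=
            (List.mem_filter.1 (List.mem_toFinset.1 hu)).1
          have hm' : u' ∈ reps r (adjMatrix G) :=
            (List.mem_filter.1 (List.mem_toFinset.1 hu')).1
          exact reps_inj hm hm' (h3.symm.trans h4)
      have h2 : (Finset.univ.filter (fun v => ¬ NonIso G v)).card ≤
          (S.filter (fun v => ¬ NonIso G v)).card := by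
        refine Finset.card_le_card (fun v hv => ?_)
        have hv' : ¬ NonIso G v := by simpa using hv
        obtain ⟨s, hs, hvs⟩ := hS2 v
        have : v = s := near_iso G hvs hv'
        rw [Finset.mem_filter, this]
        exact ⟨hs, this ▸ hv'⟩
      have h3 := Finset.card_filter_add_card_filter_not (s := S) (fun v => NonIso G v)
      omega

theorem answer_correct (r l : ℕ) (xs : List Bool) :
    answer r ((l, (xs, adjMatrix G)), 2 ^ (reps r (adjMatrix G)).length) = true ↔
      ∃ S : Finset (Fin n), S.card ≤ l ∧ IsRDom G r S := by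
  rw [← exists_check_iff G r l xs, answer, List.any_eq_true]
  simp only [List.mem_range]

theorem length_reps_le {X : Finset (Fin n)} (hX : IsSplitModulator G X) {r : ℕ} (hr : 3 ≤ r) :
    (reps r (adjMatrix G)).length ≤ 4 ^ X.card + 2 ^ X.card + X.card := by
  classical
  have hlt : ∀ u ∈ reps r (adjMatrix G), u < n := fun u hu =>
    ((mem_nonIso G).1 (List.mem_filter.1 hu).1).1
  set R : Finset (Fin n) := Finset.univ.filter (fun v => (v : ℕ) ∈ reps r (adjMatrix G)) with hR
  have h1 : (reps r (adjMatrix G)).length = R.card := by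
    rw [← List.toFinset_card_of_nodup (nodup_reps r _), ← Finset.card_map Fin.valEmbedding]
    congr 1
    ext u
    rw [List.mem_toFinset, Finset.mem_map]
    constructor
    · intro hu; exact ⟨⟨u, hlt u hu⟩, by simp [hR, hu], rfl⟩
    · rintro ⟨v, hv, rfl⟩; simpa [hR] using hv
  rw [h1]
  refine card_balls hX hr R (fun u hu => ?_) (fun u hu u' hu' h => ?_)
  · have hu' : (u : ℕ) ∈ reps r (adjMatrix G) := by simpa [hR] using hu
    exact ((mem_nonIso G).1 (List.mem_filter.1 hu').1).2
  · have hm : (u : ℕ) ∈ reps r (adjMatrix G) := by simpa [hR] using hu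
    have hm' : (u' : ℕ) ∈ reps r (adjMatrix G) := by simpa [hR] using hu'
    exact Fin.ext (reps_inj hm hm' ((ball_eq_iff G u.2 u'.2).2 h))

end

end Pool.Agent.MP918064
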