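import Mathlib

/-!
# Definitions for MP_918064_lc: r-domination, split modulators, bit encodings, machines
-/

set_option autoImplicit false

namespace Pool.Agent.MP918064

open Turing

/-- `S` is an `r`-dominating set of `G`: every vertex is at distance at most `r` from `S`. -/
def IsRDom {V : Type} (G : SimpleGraph V) (r : ℕ) (S : Finset V) : Prop :=
  ∀ v, ∃ s ∈ S, G.edist v s ≤ (r : ℕ∞)

/-- `X` is a split modulator of `G`: `G - X` is a split graph, that is, the vertices outside `X`
are partitioned into a clique `K` and an independent set `I`. -/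
def IsSplitModulator {V : Type} (G : SimpleGraph V) (X : Finset V) : Prop :=
  ∃ K I : Set V, K ∪ I = (X : Set V)ᶜ ∧ Disjoint K I ∧ G.IsClique K ∧ G.IsIndepSet I

/-! ### Encodings as bit strings -/

/-- A bit. -/
def encBit : Bool → List Bool
  | false => [false]
  | true => [true, false, false]

/-- A pair. -/
def encPair {α β : Type} (e : α → List Bool) (e' : β → List Bool) (p : α × β) : List Bool :=
  true :: (e p.1 ++ e' p.2)

/-- A list: `true` before every item and `false` at the end. -/
def encList {α : Type} (e : α → List Bool) : List α → List Bool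
  | [] => [false]
  | a :: l => true :: (e a ++ encList e l)

/-- A natural number in unary. -/
def encUnary : ℕ → List Bool
  | 0 => [false]
  | n + 1 => true :: false :: encUnary n

open Classical in
/-- The adjacency matrix of a graph. -/
noncomputable def adjMatrix {n : ℕ} (G : SimpleGraph (Fin n)) : List (List Bool) :=
  List.ofFn (fun i => List.ofFn (fun j => decide (G.Adj i j)))

/-- An instance `(G, k)` of Dominating Set: `k` in unary and the adjacency matrix. -/
noncomputable def encDS {n : ℕ} (G : SimpleGraph (Fin n)) (k : ℕ) : List Bool :=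
  encPair encUnary (encList (encList encBit)) (k, adjMatrix G)

/-- An instance `(G, X, ℓ)` of `r`-Dominating Set parametrised by SVD: `ℓ` in unary, the
characteristic vector of the modulator `X`, and the adjacency matrix. -/
noncomputable def encRDS {n : ℕ} (G : SimpleGraph (Fin n)) (X : Finset (Fin n)) (l : ℕ) :
    List Bool :=
  encPair encUnary (encPair (encList encBit) (encList (encList encBit)))
    (l, (List.ofFn (fun i => decide (i ∈ X)), adjMatrix G))

/-! ### Machines -/

/-- The machine `M` on input `x` outputs `y` in at most `t` steps. -/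
def Outputs (M : TM2ComputableAux Bool Bool) (x y : List Bool) (t : ℕ) : Prop :=
  Nonempty (TM2OutputsInTime M.tm (x.map M.inputAlphabet.invFun)
    (some (y.map M.outputAlphabet.invFun)) t)

open Classical in
/-- `r`-Dominating Set parametrised by SVD is fixed-parameter tractable: it is decided in time
`f(k) * (n + ℓ + 1) ^ c` with `f(k) = c * 2 ^ 2 ^ (c * (k + 1))`, where `k = |X|`. (One may assume
`ℓ ≤ n`.) -/
def FPT (r : ℕ) : Prop :=
  ∃ (M : TM2ComputableAux Bool Bool) (c : ℕ), ∀ (n l : ℕ) (G : SimpleGraph (Fin n))
    (X : Finset (Fin n)), IsSplitModulator G X →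
      Outputs M (encRDS G X l)
        (encBit (decide (∃ S : Finset (Fin n), S.card ≤ l ∧ IsRDom G r S)))
        (c * 2 ^ 2 ^ (c * (X.card + 1)) * (n + l + 1) ^ c)

/-- Polynomial-time parametrised reduction from Dominating Set (parameter: the solution size `k`)
to `2`-Dominating Set parametrised by SVD; the new parameter is again `k`. -/
def HardTwo : Prop :=
  ∃ (M : TM2ComputableAux Bool Bool) (p : Polynomial ℕ), ∀ (n k : ℕ) (H : SimpleGraph (Fin n)),
    ∃ (N : ℕ) (G : SimpleGraph (Fin N)) (X : Finset (Fin N)),
      IsSplitModulator G X ∧ X.card = k ∧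
      ((∃ S : Finset (Fin N), S.card ≤ k ∧ IsRDom G 2 S) ↔
        ∃ S : Finset (Fin n), S.card ≤ k ∧ IsRDom H 1 S) ∧
      Outputs M (encDS H k) (encRDS G X k) (p.eval (encDS H k).length)

/-- Polynomial-time parametrised reduction from `2`-Dominating Set parametrised by SVD to
Dominating Set (parameter: the solution size); the new parameter is at most the old one. -/
def MemberTwo : Prop :=
  ∃ (M : TM2ComputableAux Bool Bool) (p : Polynomial ℕ), ∀ (n l : ℕ) (G : SimpleGraph (Fin n))
    (X : Finset (Fin n)), IsSplitModulator G X →
    ∃ (N k : ℕ) (H : SimpleGraph (Fin N)), k ≤ X.card ∧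
      ((∃ S : Finset (Fin N), S.card ≤ k ∧ IsRDom H 1 S) ↔
        ∃ S : Finset (Fin n), S.card ≤ l ∧ IsRDom G 2 S) ∧
      Outputs M (encRDS G X l) (encDS H k) (p.eval (encRDS G X l).length)

end Pool.Agent.MP918064
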