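import Pool.Agent.Work.MP_918064_lc.Defs

/-!
# Graph theory for MP_918064_lc
-/

set_option autoImplicit false

namespace Pool.Agent.MP918064

variable {V : Type} (G : SimpleGraph V)

/-- Distance at most `r`. -/
def Near (r : ℕ) (u v : V) : Prop := G.edist u v ≤ (r : ℕ∞)

theorem near_comm {r : ℕ} {u v : V} : Near G r u v ↔ Near G r v u := by
  unfold Near; rw [SimpleGraph.edist_comm]

theorem near_refl (r : ℕ) (u : V) : Near G r u u := by
  unfold Near; rw [SimpleGraph.edist_self]; exact bot_le

theorem near_zero {u v : V} : Near G 0 u v ↔ u = v := by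
  unfold Near
  rw [Nat.cast_zero, nonpos_iff_eq_zero, SimpleGraph.edist_eq_zero_iff]

theorem Near.mono {r r' : ℕ} {u v : V} (h : Near G r u v) (hr : r ≤ r') : Near G r' u v :=
  h.trans (by exact_mod_cast hr)

theorem Near.trans {r r' : ℕ} {u v w : V} (h : Near G r u v) (h' : Near G r' v w) :
    Near G (r + r') u w := by
  unfold Near at *
  rw [Nat.cast_add]
  exact SimpleGraph.edist_triangle.trans (add_le_add h h')

theorem near_of_adj {u v : V} (h : G.Adj u v) : Near G 1 u v := by
  unfold Near
  rw [Nat.cast_one, SimpleGraph.edist_eq_one_iff_adj.2 h]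

theorem near_one {u v : V} : Near G 1 u v ↔ u = v ∨ G.Adj u v := by
  unfold Near
  rw [Nat.cast_one, SimpleGraph.edist_le_one_iff_adj_or_eq]
  tauto

theorem near_succ {r : ℕ} {u v : V} :
    Near G (r + 1) u v ↔ Near G r u v ∨ ∃ w, G.Adj u w ∧ Near G r w v := by
  constructor
  · intro h
    have hne : G.edist u v ≠ ⊤ := by
      intro h'
      unfold Near at h
      rw [h'] at h
      exact absurd h (by simp)
    obtain ⟨p, hp⟩ := SimpleGraph.exists_walk_of_edist_ne_top hne
    unfold Near at h
    rw [← hp] at h
    cases p with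
    | nil => left; exact near_refl G r u
    | @cons _ w _ hadj q =>
      right
      refine ⟨w, hadj, ?_⟩
      unfold Near
      refine (SimpleGraph.edist_le q).trans ?_
      rw [SimpleGraph.Walk.length_cons] at h
      have h' : q.length + 1 ≤ r + 1 := by exact_mod_cast h
      exact_mod_cast Nat.le_of_succ_le_succ h'
  · rintro (h | ⟨w, hw, h⟩)
    · exact h.mono G (Nat.le_succ r)
    · have := (near_of_adj G hw).trans G h
      rwa [Nat.add_comm] at this

theorem near_succ' {r : ℕ} {u v : V} :
    Near G (r + 1) u v ↔ Near G r u v ∨ ∃ w, Near G r u w ∧ G.Adj w v := by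
  rw [near_comm, near_succ, near_comm]
  refine or_congr Iff.rfl (exists_congr fun w => ?_)
  rw [near_comm G (u := w), G.adj_comm, and_comm]

/-- Not isolated. -/
def NonIso (u : V) : Prop := ∃ w, G.Adj u w

theorem Near.nonIso {r : ℕ} {u v : V} (h : Near G r u v) (hu : NonIso G u) : NonIso G v := by
  induction r generalizing v with
  | zero => rw [near_zero] at h; exact h ▸ hu
  | succ r ih =>
    rcases (near_succ' G).1 h with h | ⟨w, -, hw⟩
    · exact ih h
    · exact ⟨w, hw.symm⟩

theorem near_iso {r : ℕ} {u v : V} (h : Near G r u v) (hu : ¬ NonIso G u) : u = v := by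
  induction r with
  | zero => exact (near_zero G).1 h
  | succ r ih =>
    rcases (near_succ G).1 h with h | ⟨w, hw, -⟩
    · exact ih h
    · exact absurd ⟨w, hw⟩ hu

section split
variable {G} {X : Finset V}

/-- The vertices of the large component of `G - X`. -/
def Core (G : SimpleGraph V) (K : Set V) (X : Finset V) (u : V) : Prop :=
  u ∉ X ∧ (u ∈ K ∨ ∃ q ∈ K, G.Adj u q)

theorem core_near {K : Set V} (hK : G.IsClique K) {u v : V}
    (hu : Core G K X u) (hv : Core G K X v) : Near G 3 u v := by
  have key : ∀ {u : V}, Core G K X u → ∃ q ∈ K, Near G 1 u q := by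
    rintro u ⟨-, h | ⟨q, hq, h⟩⟩
    · exact ⟨u, h, near_refl G 1 u⟩
    · exact ⟨q, hq, near_of_adj G h⟩
  obtain ⟨q, hq, h1⟩ := key hu
  obtain ⟨q', hq', h2⟩ := key hv
  have h3 : Near G 1 q q' := by
    by_cases e : q = q'
    · rw [e]; exact near_refl G 1 q'
    · exact near_of_adj G (hK hq hq' e)
  exact (h1.trans G h3).trans G ((near_comm G).1 h2)

/-- Equal types force equal balls. -/
theorem ball_core {K I : Set V} (hKI : K ∪ I = (X : Set V)ᶜ) (hK : G.IsClique K)
    (hI : G.IsIndepSet I) {r : ℕ} (hr : 3 ≤ r) {u u' : V} (hu : Core G K X u)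
    (hu' : Core G K X u')
    (h1 : ∀ x ∈ X, Near G (r - 1) u x → Near G (r - 1) u' x)
    (h2 : ∀ x ∈ X, Near G r u x → Near G r u' x) {v : V} (hv : Near G r u v) :
    Near G r u' v := by
  by_cases hvX : v ∈ X
  · exact h2 v hvX hv
  by_cases hvC : Core G K X v
  · exact (core_near hK hu' hvC).mono G hr
  · -- all neighbours of `v` are in `X`
    obtain ⟨s, rfl⟩ : ∃ s, r = s + 1 := ⟨r - 1, by omega⟩
    rcases (near_succ' G).1 hv with h | ⟨w, hw, hwv⟩
    · -- then also distance at most s, use the last step again or equality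
      by_cases huv : u = v
      · exact absurd (huv ▸ hu) hvC
      · obtain ⟨t, rfl⟩ : ∃ t, s = t + 1 := ⟨s - 1, by omega⟩
        -- find the last step of a shortest path
        have hlast : ∀ j : ℕ, Near G j u v → ∃ w, Near G (j - 1) u w ∧ G.Adj w v := by
          intro j
          induction j with
          | zero => intro h; exact absurd ((near_zero G).1 h) huv
          | succ j ih =>
            intro h
            rcases (near_succ' G).1 h with h | ⟨w, hw, hwv⟩
            · obtain ⟨w, hw, hwv⟩ := ih h
              exact ⟨w, hw.mono G (by omega), hwv⟩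
            · exact ⟨w, by simpa using hw, hwv⟩
        obtain ⟨w, hw, hwv⟩ := hlast _ h
        have hwX : w ∈ X := by
          by_contra hwX
          have hw' : w ∈ K ∪ I := by rw [hKI]; exact hwX
          have hv' : v ∈ K ∪ I := by rw [hKI]; exact hvX
          rcases hw' with hwK | hwI
          · exact hvC ⟨hvX, Or.inr ⟨w, hwK, hwv.symm⟩⟩
          · rcases hv' with hvK | hvI
            · exact hvC ⟨hvX, Or.inl hvK⟩
            · exact hI hwI hvI hwv.ne hwv
        have h3 : Near G (t + 1 + 1 - 1) u' w := h1 w hwX (hw.mono G (by omega))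
        exact (near_succ' G).2 (Or.inr ⟨w, by simpa using h3, hwv⟩)
    · have hwX : w ∈ X := by
        by_contra hwX
        have hw' : w ∈ K ∪ I := by rw [hKI]; exact hwX
        have hv' : v ∈ K ∪ I := by rw [hKI]; exact hvX
        rcases hw' with hwK | hwI
        · exact hvC ⟨hvX, Or.inr ⟨w, hwK, hwv.symm⟩⟩
        · rcases hv' with hvK | hvI
          · exact hvC ⟨hvX, Or.inl hvK⟩
          · exact hI hwI hvI hwv.ne hwv
      have h3 := h1 w hwX (by simpa using hw)
      exact (near_succ' G).2 (Or.inr ⟨w, by simpa using h3, hwv⟩)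

theorem ball_twin {r : ℕ} (hr : 3 ≤ r) {u u' : V} (hu : NonIso G u)
    (h : ∀ x, G.Adj u x ↔ G.Adj u' x) {v : V} (hv : Near G r u v) : Near G r u' v := by
  by_cases huv : u = v
  · subst huv
    obtain ⟨w, hw⟩ := hu
    have h1 : Near G 2 u' u :=
      (near_of_adj G ((h w).1 hw)).trans G (near_of_adj G hw.symm)
    exact h1.mono G (by omega)
  · have hfirst : ∀ j : ℕ, Near G j u v → ∃ w, G.Adj u w ∧ Near G (j - 1) w v := by
      intro j
      induction j with
      | zero => intro h; exact absurd ((near_zero G).1 h) huv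
      | succ j ih =>
        intro h
        rcases (near_succ G).1 h with h | ⟨w, hw, hwv⟩
        · obtain ⟨w, hw, hwv⟩ := ih h
          exact ⟨w, hw, hwv.mono G (by omega)⟩
        · exact ⟨w, hw, by simpa using hwv⟩
    obtain ⟨w, hw, hwv⟩ := hfirst _ hv
    obtain ⟨s, rfl⟩ : ∃ s, r = s + 1 := ⟨r - 1, by omega⟩
    exact (near_succ G).2 (Or.inr ⟨w, (h w).1 hw, by simpa using hwv⟩)

open Classical in
/-- The type of a vertex. -/
noncomputable def vtype (G : SimpleGraph V) (K : Set V) (X : Finset V) (r : ℕ) (u : V) :
    (Finset V × Finset V) ⊕ (Finset V ⊕ V) :=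
  if u ∈ X then .inr (.inr u) else
    if Core G K X u then .inl (X.filter (fun x => Near G (r - 1) u x),
      X.filter (fun x => Near G r u x))
    else .inr (.inl (X.filter (fun x => G.Adj u x)))

theorem ball_of_vtype {K I : Set V} (hKI : K ∪ I = (X : Set V)ᶜ) (hK : G.IsClique K)
    (hI : G.IsIndepSet I) {r : ℕ} (hr : 3 ≤ r) {u u' : V} (hu : NonIso G u) 
    (h : vtype G K X r u = vtype G K X r u') {v : V} (hv : Near G r u v) : Near G r u' v := by
  classical
  unfold vtype at h
  by_cases h1 : u ∈ X
  · rw [if_pos h1] at h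
    by_cases h1' : u' ∈ X
    · rw [if_pos h1'] at h
      have : u = u' := by simpa using h
      exact this ▸ hv
    · rw [if_neg h1'] at h
      split_ifs at h
      simp at h
  · rw [if_neg h1] at h
    by_cases h2 : Core G K X u
    · rw [if_pos h2] at h
      by_cases h1' : u' ∈ X
      · rw [if_pos h1'] at h; cases h
      · rw [if_neg h1'] at h
        by_cases h2' : Core G K X u'
        · rw [if_pos h2'] at h
          simp only [Sum.inl.injEq, Prod.mk.injEq] at h
          refine ball_core hKI hK hI hr h2 h2' (fun x hx hux => ?_) (fun x hx hux => ?_) hv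
          · have : x ∈ X.filter (fun x => Near G (r - 1) u x) := Finset.mem_filter.2 ⟨hx, hux⟩
            rw [h.1] at this
            exact (Finset.mem_filter.1 this).2
          · have : x ∈ X.filter (fun x => Near G r u x) := Finset.mem_filter.2 ⟨hx, hux⟩
            rw [h.2] at this
            exact (Finset.mem_filter.1 this).2
        · rw [if_neg h2'] at h; cases h
    · rw [if_neg h2] at h
      by_cases h1' : u' ∈ X
      · rw [if_pos h1'] at h; simp at h
      · rw [if_neg h1'] at h
        by_cases h2' : Core G K X u'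
        · rw [if_pos h2'] at h; cases h
        · rw [if_neg h2'] at h
          simp only [Sum.inr.injEq, Sum.inl.injEq] at h
          have hnb : ∀ {u : V}, u ∉ X → ¬ Core G K X u → ∀ x, G.Adj u x → x ∈ X := by
            intro u hu hc x hux
            by_contra hx
            have hx' : x ∈ K ∪ I := by rw [hKI]; exact hx
            have hu' : u ∈ K ∪ I := by rw [hKI]; exact hu
            rcases hx' with hxK | hxI
            · exact hc ⟨hu, Or.inr ⟨x, hxK, hux⟩⟩
            · rcases hu' with huK | huI
              · exact hc ⟨hu, Or.inl huK⟩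
              · exact hI huI hxI hux.ne hux
          refine ball_twin hr hu (fun x => ⟨fun hx => ?_, fun hx => ?_⟩) hv
          · have : x ∈ X.filter (fun x => G.Adj u x) :=
              Finset.mem_filter.2 ⟨hnb h1 h2 x hx, hx⟩
            rw [h] at this
            exact (Finset.mem_filter.1 this).2
          · have : x ∈ X.filter (fun x => G.Adj u' x) :=
              Finset.mem_filter.2 ⟨hnb h1' h2' x hx, hx⟩
            rw [← h] at this
            exact (Finset.mem_filter.1 this).2

/-- For `r ≥ 3` there are few distinct balls around non-isolated vertices. -/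
theorem card_balls (hX : IsSplitModulator G X) {r : ℕ} (hr : 3 ≤ r) (R : Finset V)
    (hR : ∀ u ∈ R, NonIso G u)
    (hR' : ∀ u ∈ R, ∀ u' ∈ R, (∀ v, Near G r u v ↔ Near G r u' v) → u = u') :
    R.card ≤ 4 ^ X.card + 2 ^ X.card + X.card := by
  classical
  obtain ⟨K, I, hKI, -, hK, hI⟩ := hX
  have h1 : R.card ≤ ((X.powerset ×ˢ X.powerset).disjSum (X.powerset.disjSum X)).card := by
    refine Finset.card_le_card_of_injOn (vtype G K X r) (fun u _ => ?_) (fun u hu u' hu' h => ?_)
    · rw [Finset.mem_coe]
      unfold vtype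
      split_ifs with h1 h2
      · simp [h1]
      · simp
      · simp
    · refine hR' u hu u' hu' (fun v => ⟨ball_of_vtype hKI hK hI hr (hR u hu) h,
        ball_of_vtype hKI hK hI hr (hR u' hu') h.symm⟩)
  rw [Finset.card_disjSum, Finset.card_disjSum, Finset.card_product, Finset.card_powerset] at h1
  have h2 : 2 ^ X.card * 2 ^ X.card = 4 ^ X.card := by rw [← mul_pow]; norm_num
  omega

/-- For `r = 2` the non-isolated vertices are dominated by few vertices. -/
theorem two_dom_of_modulator (hX : IsSplitModulator G X) :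
    ∃ S : Finset V, S.card ≤ X.card + 1 ∧ ∀ v, NonIso G v → ∃ s ∈ S, Near G 2 v s := by
  classical
  obtain ⟨K, I, hKI, -, hK, hI⟩ := hX
  by_cases hne : K.Nonempty
  · obtain ⟨q, hq⟩ := hne
    refine ⟨insert q X, Finset.card_insert_le _ _, fun v hv => ?_⟩
    by_cases hvX : v ∈ X
    · exact ⟨v, by simp [hvX], near_refl G 2 v⟩
    · have hv' : v ∈ K ∪ I := by rw [hKI]; exact hvX
      rcases hv' with hvK | hvI
      · refine ⟨q, by simp, ?_⟩
        by_cases e : v = q
        · rw [e]; exact near_refl G 2 q
        · exact (near_of_adj G (hK hvK hq e)).mono G (by norm_num)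
      · obtain ⟨w, hw⟩ := hv
        by_cases hwX : w ∈ X
        · exact ⟨w, by simp [hwX], (near_of_adj G hw).mono G (by norm_num)⟩
        · have hw' : w ∈ K ∪ I := by rw [hKI]; exact hwX
          rcases hw' with hwK | hwI
          · refine ⟨q, by simp, ?_⟩
            by_cases e : w = q
            · rw [← e]; exact (near_of_adj G hw).mono G (by norm_num)
            · exact (near_of_adj G hw).trans G (near_of_adj G (hK hwK hq e))
          · exact absurd hw (hI hvI hwI hw.ne)
  · refine ⟨X, by omega, fun v hv => ?_⟩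
    by_cases hvX : v ∈ X
    · exact ⟨v, hvX, near_refl G 2 v⟩
    · obtain ⟨w, hw⟩ := hv
      have hv' : v ∈ I := by
        have : v ∈ K ∪ I := by rw [hKI]; exact hvX
        rcases this with h | h
        · exact absurd ⟨v, h⟩ hne
        · exact h
      by_cases hwX : w ∈ X
      · exact ⟨w, hwX, (near_of_adj G hw).mono G (by norm_num)⟩
      · have hw' : w ∈ I := by
          have : w ∈ K ∪ I := by rw [hKI]; exact hwX
          rcases this with h | h
          · exact absurd ⟨w, h⟩ hne
          · exact h
        exact absurd hw (hI hv' hw' hw.ne)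

end split

end Pool.Agent.MP918064
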