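import Pool.Agent.Work.MP_918064_lc.Three

/-!
# For `r = 2`: reduction from Dominating Set
-/

set_option autoImplicit false

namespace Pool.Agent.MP918064

open Pool.Agent.PT Turing

theorem near_two {V : Type} (G : SimpleGraph V) {u v : V} :
    Near G 2 u v ↔ u = v ∨ G.Adj u v ∨ ∃ w, G.Adj u w ∧ G.Adj w v := by
  rw [show (2 : ℕ) = 1 + 1 from rfl, near_succ, near_one]
  simp only [near_one]
  constructor
  · rintro ((h | h) | ⟨w, hw, h | h⟩)
    · exact Or.inl h
    · exact Or.inr (Or.inl h)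
    · exact Or.inr (Or.inl (h ▸ hw))
    · exact Or.inr (Or.inr ⟨w, hw, h⟩)
  · rintro (h | h | ⟨w, hw, h⟩)
    · exact Or.inl (Or.inl h)
    · exact Or.inl (Or.inr h)
    · exact Or.inr ⟨w, hw, Or.inr h⟩

/-! ### Transport along an equivalence -/

section transport
variable {V W : Type} (e : V ≃ W) (G : SimpleGraph V)

theorem near_comap {r : ℕ} {x y : W} :
    Near (G.comap e.symm) r x y ↔ Near G r (e.symm x) (e.symm y) := by
  induction r generalizing x with
  | zero => rw [near_zero, near_zero, e.symm.injective.eq_iff]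
  | succ r ih =>
    rw [near_succ, near_succ, ih]
    refine or_congr Iff.rfl ?_
    constructor
    · rintro ⟨w, hw, h⟩; exact ⟨e.symm w, hw, ih.1 h⟩
    · rintro ⟨w, hw, h⟩
      exact ⟨e w, by simpa using hw, ih.2 (by simpa using h)⟩

theorem dom_comap (r l : ℕ) : (∃ S : Finset W, S.card ≤ l ∧ IsRDom (G.comap e.symm) r S) ↔
    ∃ S : Finset V, S.card ≤ l ∧ IsRDom G r S := by
  constructor
  · rintro ⟨S, h1, h2⟩
    refine ⟨S.map e.symm.toEmbedding, by rwa [Finset.card_map], fun v => ?_⟩
    obtain ⟨s, hs, h⟩ := h2 (e v)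
    refine ⟨e.symm s, Finset.mem_map_of_mem _ hs, ?_⟩
    have := (near_comap e G (r := r)).1 h
    rw [e.symm_apply_apply] at this
    exact this
  · rintro ⟨S, h1, h2⟩
    refine ⟨S.map e.toEmbedding, by rwa [Finset.card_map], fun v => ?_⟩
    obtain ⟨s, hs, h⟩ := h2 (e.symm v)
    refine ⟨e s, Finset.mem_map_of_mem _ hs, ?_⟩
    refine (near_comap e G (r := r)).2 ?_
    rw [e.symm_apply_apply]
    exact h

end transport

/-! ### The graph of the reduction -/

/-- The vertices: `K a`, `W a`, `X i`, `Y i`, `C i u`. -/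
abbrev VT (n k : ℕ) : Type := Fin n ⊕ (Fin n ⊕ (Fin k ⊕ (Fin k ⊕ (Fin k × Fin n))))

section graph
variable {n k : ℕ} (H : SimpleGraph (Fin n))

/-- Vertices of the clique. -/
abbrev vK (a : Fin n) : VT n k := Sum.inl a
/-- Element vertices. -/
abbrev vW (a : Fin n) : VT n k := Sum.inr (Sum.inl a)
/-- Modulator vertices. -/
abbrev vX (i : Fin k) : VT n k := Sum.inr (Sum.inr (Sum.inl i))
/-- Private neighbours. -/
abbrev vY (i : Fin k) : VT n k := Sum.inr (Sum.inr (Sum.inr (Sum.inl i)))
/-- Choice vertices. -/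
abbrev vC (i : Fin k) (u : Fin n) : VT n k := Sum.inr (Sum.inr (Sum.inr (Sum.inr (i, u))))

/-- The edges, in one direction. -/
def half : VT n k → VT n k → Prop
  | .inl a, .inl b => a ≠ b
  | .inl a, .inr (.inl b) => a = b
  | .inl a, .inr (.inr (.inr (.inr p))) => p.2 = a ∨ H.Adj p.2 a
  | .inr (.inr (.inl i)), .inr (.inr (.inr (.inl j))) => i = j
  | .inr (.inr (.inl i)), .inr (.inr (.inr (.inr p))) => p.1 = i
  | _, _ => False

/-- The graph. -/
def gr (n k : ℕ) (H : SimpleGraph (Fin n)) : SimpleGraph (VT n k) where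
  Adj p q := half H p q ∨ half H q p
  symm := ⟨fun p q h => Or.symm h⟩
  loopless := ⟨by
    rintro (a | a | i | i | p) h <;> simp [half] at h⟩

theorem adj_W {a : Fin n} {q : VT n k} : (gr n k H).Adj (vW a) q ↔ q = vK a := by
  rcases q with b | b | i | i | p <;> simp [gr, half]

theorem adj_Y {i : Fin k} {q : VT n k} : (gr n k H).Adj (vY i) q ↔ q = vX i := by
  rcases q with b | b | j | j | p <;> simp [gr, half]

theorem adj_X {i : Fin k} {q : VT n k} : (gr n k H).Adj (vX i) q ↔
    q = vY i ∨ ∃ u, q = vC i u := by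
  rcases q with b | b | j | j | p
  · simp [gr, half]
  · simp [gr, half]
  · simp [gr, half]
  · simp [gr, half]; exact eq_comm
  · obtain ⟨j, u⟩ := p
    simp [gr, half]

theorem adj_K {a : Fin n} {q : VT n k} : (gr n k H).Adj (vK a) q ↔
    (∃ b, b ≠ a ∧ q = vK b) ∨ q = vW a ∨ ∃ i u, (u = a ∨ H.Adj u a) ∧ q = vC i u := by
  rcases q with b | b | j | j | p
  · simp [gr, half]; tauto
  · simp [gr, half]; exact eq_comm
  · simp [gr, half]
  · simp [gr, half]
  · obtain ⟨j, u⟩ := p
    simp only [gr, half]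
    constructor
    · rintro (h | h)
      · exact Or.inr (Or.inr ⟨j, u, h, rfl⟩)
      · exact h.elim
    · rintro (⟨b, -, h⟩ | h | ⟨i, u', h, h'⟩)
      · simp at h
      · simp at h
      · simp at h'
        obtain ⟨rfl, rfl⟩ := h'
        exact Or.inl h

theorem main_iff : (∃ S : Finset (VT n k), S.card ≤ k ∧ IsRDom (gr n k H) 2 S) ↔
    ∃ S : Finset (Fin n), S.card ≤ k ∧ IsRDom H 1 S := by
  classical
  constructor
  · rintro ⟨S, hS1, hS2⟩
    -- every group contains a vertex of `S`
    have h1 : ∀ i : Fin k, ∃ s ∈ S, s = vY i ∨ s = vX i ∨ ∃ u, s = vC i u := by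
      intro i
      obtain ⟨s, hs, h⟩ := hS2 (vY i)
      refine ⟨s, hs, ?_⟩
      rcases (near_two _).1 h with h | h | ⟨w, hw, h⟩
      · exact Or.inl h.symm
      · exact Or.inr (Or.inl ((adj_Y H).1 h))
      · rw [adj_Y] at hw
        subst hw
        rcases (adj_X H).1 h with h | h
        · exact Or.inl h
        · exact Or.inr (Or.inr h)
    choose f hf hf' using h1
    have hinj : Function.Injective f := by
      intro i j hij
      have h2 := hf' i
      have h3 := hf' j
      rw [← hij] at h3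
      rcases h2 with h2 | h2 | ⟨u, h2⟩ <;> rcases h3 with h3 | h3 | ⟨u', h3⟩ <;>
        rw [h2] at h3 <;> simp at h3
      · exact h3
      · exact h3
      · exact h3.1
    have himg : Finset.univ.image f = S := by
      refine Finset.eq_of_subset_of_card_le (fun x hx => ?_) ?_
      · obtain ⟨i, -, rfl⟩ := Finset.mem_image.1 hx
        exact hf i
      · rw [Finset.card_image_of_injective _ hinj, Finset.card_univ, Fintype.card_fin]
        exact hS1
    refine ⟨Finset.univ.filter (fun u => ∃ i, vC i u ∈ S), ?_, fun w => ?_⟩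
    · refine le_trans ?_ hS1
      have : ∀ u ∈ Finset.univ.filter (fun u => ∃ i, vC i u ∈ S), ∃ s : VT n k, s ∈ S ∧
          ∃ i, s = vC i u := by
        intro u hu
        obtain ⟨i, hi⟩ := (Finset.mem_filter.1 hu).2
        exact ⟨_, hi, i, rfl⟩
      choose! g hg hg' using this
      refine Finset.card_le_card_of_injOn g (fun u hu => hg u hu) (fun u hu u' hu' h => ?_)
      obtain ⟨i, hi⟩ := hg' u hu
      obtain ⟨j, hj⟩ := hg' u' hu'
      rw [hi, hj] at h
      simp at h
      exact h.2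
    · obtain ⟨s, hs, h⟩ := hS2 (vW w)
      have hs' : ∃ i, f i = s := by
        rw [← himg] at hs
        obtain ⟨i, -, hi⟩ := Finset.mem_image.1 hs
        exact ⟨i, hi⟩
      obtain ⟨i, hi⟩ := hs'
      have h2 := hf' i
      rw [hi] at h2
      have h3 : s = vW w ∨ s = vK w ∨ (∃ b, s = vK b) ∨
          ∃ i u, (u = w ∨ H.Adj u w) ∧ s = vC i u := by
        rcases (near_two _).1 h with h | h | ⟨x, hx, h⟩
        · exact Or.inl h.symm
        · exact Or.inr (Or.inl ((adj_W H).1 h))
        · rw [adj_W] at hx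
          subst hx
          rcases (adj_K H).1 h with ⟨b, -, h⟩ | h | h
          · exact Or.inr (Or.inr (Or.inl ⟨b, h⟩))
          · exact Or.inl h
          · exact Or.inr (Or.inr (Or.inr h))
      rcases h3 with h3 | h3 | ⟨b, h3⟩ | ⟨j, u, hu, h3⟩
      · rw [h3] at h2; simp at h2
      · rw [h3] at h2; simp at h2
      · rw [h3] at h2; simp at h2
      · refine ⟨u, ?_, ?_⟩
        · rw [Finset.mem_filter]
          exact ⟨Finset.mem_univ _, j, h3 ▸ hs⟩
        · refine (near_one H).2 ?_
          rcases hu with hu | hu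
          · exact Or.inl hu.symm
          · exact Or.inr hu.symm
  · rintro ⟨D, hD1, hD2⟩
    rcases Nat.eq_zero_or_pos n with hn | hn
    · subst hn
      refine ⟨Finset.univ.image (fun i => vX i), ?_, fun v => ?_⟩
      · refine Finset.card_image_le.trans ?_
        rw [Finset.card_univ, Fintype.card_fin]
      · rcases v with a | a | i | i | p
        · exact a.elim0
        · exact a.elim0
        · exact ⟨vX i, Finset.mem_image_of_mem _ (Finset.mem_univ i), near_refl _ 2 _⟩
        · refine ⟨vX i, Finset.mem_image_of_mem _ (Finset.mem_univ i), ?_⟩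
          exact (near_two _).2 (Or.inr (Or.inl ((adj_Y H).2 rfl)))
        · exact p.2.elim0
    · obtain ⟨u0, hu0, -⟩ := hD2 ⟨0, hn⟩
      -- enumerate the dominating set
      obtain ⟨d, hd⟩ : ∃ d : Fin k → Fin n, ∀ u ∈ D, ∃ i, d i = u := by
        let e := D.equivFin
        refine ⟨fun i => if h : (i : ℕ) < D.card then (e.symm ⟨i, h⟩ : Fin n) else u0,
          fun u hu => ⟨⟨e ⟨u, hu⟩, lt_of_lt_of_le (e ⟨u, hu⟩).2 hD1⟩, ?_⟩⟩
        have h1 : ((e ⟨u, hu⟩ : Fin D.card) : ℕ) < D.card := (e ⟨u, hu⟩).2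
        simp
      have hk : 0 < k := lt_of_lt_of_le (Finset.card_pos.2 ⟨u0, hu0⟩) hD1
      refine ⟨Finset.univ.image (fun i => vC i (d i)), ?_, fun v => ?_⟩
      · refine Finset.card_image_le.trans ?_
        rw [Finset.card_univ, Fintype.card_fin]
      · have hmem : ∀ i, vC i (d i) ∈ Finset.univ.image (fun i => vC i (d i)) := fun i =>
          Finset.mem_image_of_mem _ (Finset.mem_univ i)
        have hdom : ∀ w, ∃ i, d i = w ∨ H.Adj (d i) w := by
          intro w
          obtain ⟨u, hu, h⟩ := hD2 w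
          obtain ⟨i, hi⟩ := hd u hu
          refine ⟨i, ?_⟩
          rw [hi]
          rcases (near_one H).1 h with h | h
          · exact Or.inl h.symm
          · exact Or.inr h.symm
        rcases v with a | a | i | i | p
        · obtain ⟨i, hi⟩ := hdom a
          exact ⟨_, hmem i, (near_two _).2 (Or.inr (Or.inl ((adj_K H).2
            (Or.inr (Or.inr ⟨i, d i, hi, rfl⟩)))))⟩
        · obtain ⟨i, hi⟩ := hdom a
          exact ⟨_, hmem i, (near_two _).2 (Or.inr (Or.inr ⟨vK a, (adj_W H).2 rfl, (adj_K H).2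
            (Or.inr (Or.inr ⟨i, d i, hi, rfl⟩))⟩))⟩
        · exact ⟨_, hmem i, (near_two _).2 (Or.inr (Or.inl ((adj_X H).2 (Or.inr ⟨d i, rfl⟩))))⟩
        · exact ⟨_, hmem i, (near_two _).2 (Or.inr (Or.inr ⟨vX i, (adj_Y H).2 rfl,
            (adj_X H).2 (Or.inr ⟨d i, rfl⟩)⟩))⟩
        · obtain ⟨i, u⟩ := p
          exact ⟨_, hmem i, (near_two _).2 (Or.inr (Or.inr ⟨vX i,
            ((adj_X H).2 (Or.inr ⟨u, rfl⟩)).symm, (adj_X H).2 (Or.inr ⟨d i, rfl⟩)⟩))⟩

end graph

end Pool.Agent.MP918064
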