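import Pool.Agent.Work.MP_918064_lc.Hard

/-!
# For `r = 2`: the reduction from Dominating Set is computable in polynomial time
-/

set_option autoImplicit false

namespace Pool.Agent.MP918064

open Pool.Agent.PT Turing

/-- The numbering of the vertices. -/
def num (n k : ℕ) : VT n k ≃ Fin (n + (n + (k + (k + k * n)))) :=
  (Equiv.sumCongr (Equiv.refl _) ((Equiv.sumCongr (Equiv.refl _)
    ((Equiv.sumCongr (Equiv.refl _) ((Equiv.sumCongr (Equiv.refl _)
      finProdFinEquiv).trans finSumFinEquiv)).trans finSumFinEquiv)).trans
        finSumFinEquiv)).trans finSumFinEquiv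

section
variable {n k : ℕ}

theorem num_K (a : Fin n) : ((num n k (vK a) : Fin _) : ℕ) = a := rfl
theorem num_W (a : Fin n) : ((num n k (vW a) : Fin _) : ℕ) = n + a := rfl
theorem num_X (i : Fin k) : ((num n k (vX i) : Fin _) : ℕ) = n + (n + i) := rfl
theorem num_Y (i : Fin k) : ((num n k (vY i) : Fin _) : ℕ) = n + (n + (k + i)) := rfl
theorem num_C (i : Fin k) (u : Fin n) :
    ((num n k (vC i u) : Fin _) : ℕ) = n + (n + (k + (k + (u + n * i)))) := rfl

end

/-- The edges between numbers, in one direction. -/
def halfN (n k : ℕ) (M : List (List Bool)) (a b : ℕ) : Bool :=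
  (decide (a < n) && (decide (b < n) && decide (a ≠ b))) ||
  ((decide (a < n) && decide (b = n + a)) ||
  ((decide (a < n) && (decide (n + (n + (k + k)) ≤ b) &&
    (decide ((b - (n + (n + (k + k)))) % n = a) ||
      adjM M ((b - (n + (n + (k + k)))) % n) a))) ||
  ((decide (n + n ≤ a) && (decide (a < n + (n + k)) && decide (b = a + k))) ||
  (decide (n + n ≤ a) && (decide (a < n + (n + k)) && (decide (n + (n + (k + k)) ≤ b) &&
    decide ((b - (n + (n + (k + k)))) / n = a - (n + n))))))))

theorem halfN_iff {n k : ℕ} (H : SimpleGraph (Fin n)) (p q : VT n k) :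
    halfN n k (adjMatrix H) (num n k p) (num n k q) = true ↔ half H p q := by
  have hC : ∀ (i : Fin k) (u : Fin n),
      (n + (n + (k + (k + (u + n * i))))) - (n + (n + (k + k))) = (u : ℕ) + n * i := by
    intro i u; omega
  have hm : ∀ (i : Fin k) (u : Fin n), ((u : ℕ) + n * i) % n = u := by
    intro i u
    rw [Nat.add_mul_mod_self_left, Nat.mod_eq_of_lt u.2]
  have hd : ∀ (i : Fin k) (u : Fin n), ((u : ℕ) + n * i) / n = i := by
    intro i u
    rw [Nat.add_mul_div_left _ _ (lt_of_le_of_lt (Nat.zero_le _) u.2),
      Nat.div_eq_of_lt u.2, Nat.zero_add]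
  unfold halfN
  simp only [Bool.or_eq_true, Bool.and_eq_true, decide_eq_true_eq]
  rcases p with a | a | i | i | ⟨i, u⟩ <;> rcases q with b | b | j | j | ⟨j, v⟩
  · rw [num_K, num_K]
    have := a.2
    have := b.2
    simp only [half]
    constructor
    · intro h h'; subst h'; omega
    · intro h
      left
      exact ⟨a.2, b.2, fun h' => h (Fin.ext h')⟩
  · rw [num_K, num_W]
    have := a.2
    have := b.2
    simp only [half]
    constructor
    · intro h
      have : (a : ℕ) = b := by omega
      exact Fin.ext this
    · rintro rfl; right; left; exact ⟨a.2, rfl⟩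
  · rw [num_K, num_X]
    have := a.2
    have := j.2
    simp only [half, iff_false]
    omega
  · rw [num_K, num_Y]
    have := a.2
    have := j.2
    simp only [half, iff_false]
    omega
  · rw [num_K, num_C, hC, hm, hd]
    have ha := a.2
    have := v.2
    simp only [half]
    rw [adjM_iff]
    constructor
    · rintro (h | h | h | h | h)
      · omega
      · omega
      · rcases h.2.2 with h | ⟨_, _, h⟩
        · left; exact Fin.ext h
        · right; exact h
      · omega
      · omega
    · intro h
      right; right; left
      refine ⟨a.2, by omega, ?_⟩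
      rcases h with h | h
      · left; exact congrArg Fin.val h
      · right; exact ⟨v.2, a.2, h⟩
  · rw [num_W, num_K]
    have := a.2
    have := b.2
    simp only [half, iff_false]
    omega
  · rw [num_W, num_W]
    have := a.2
    have := b.2
    simp only [half, iff_false]
    omega
  · rw [num_W, num_X]
    have := a.2
    have := j.2
    simp only [half, iff_false]
    omega
  · rw [num_W, num_Y]
    have := a.2
    have := j.2
    simp only [half, iff_false]
    omega
  · rw [num_W, num_C]
    have := a.2
    have := j.2
    simp only [half, iff_false]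
    omega
  · rw [num_X, num_K]
    have := i.2
    have := b.2
    simp only [half, iff_false]
    omega
  · rw [num_X, num_W]
    have := i.2
    have := b.2
    simp only [half, iff_false]
    omega
  · rw [num_X, num_X]
    have := i.2
    have := j.2
    simp only [half, iff_false]
    omega
  · rw [num_X, num_Y]
    have := i.2
    have := j.2
    simp only [half]
    constructor
    · intro h
      have : (i : ℕ) = j := by omega
      exact Fin.ext this
    · rintro rfl
      right; right; right; left
      omega
  · rw [num_X, num_C, hC, hm, hd]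
    have := i.2
    have := v.2
    simp only [half]
    constructor
    · rintro (h | h | h | h | h)
      · omega
      · omega
      · omega
      · omega
      · exact Fin.ext (by omega)
    · intro h
      have : (j : ℕ) = i := congrArg Fin.val h
      right; right; right; right
      omega
  · rw [num_Y, num_K]
    have := i.2
    have := b.2
    simp only [half, iff_false]
    omega
  · rw [num_Y, num_W]
    have := i.2
    have := b.2
    simp only [half, iff_false]
    omega
  · rw [num_Y, num_X]
    have := i.2
    have := j.2
    simp only [half, iff_false]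
    omega
  · rw [num_Y, num_Y]
    have := i.2
    have := j.2
    simp only [half, iff_false]
    omega
  · rw [num_Y, num_C]
    have := i.2
    have := j.2
    simp only [half, iff_false]
    omega
  · rw [num_C, num_K]
    have := u.2
    have := b.2
    simp only [half, iff_false]
    omega
  · rw [num_C, num_W]
    have := u.2
    have := b.2
    simp only [half, iff_false]
    omega
  · rw [num_C, num_X]
    have := u.2
    have := j.2
    simp only [half, iff_false]
    omega
  · rw [num_C, num_Y]
    have := u.2
    have := j.2
    simp only [half, iff_false]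
    omega
  · rw [num_C, num_C]
    have := u.2
    have := j.2
    simp only [half, iff_false]
    omega

/-- The adjacency matrix of the new graph. -/
def newMat (k : ℕ) (M : List (List Bool)) : List (List Bool) :=
  (List.range (M.length + (M.length + (k + (k + k * M.length))))).map (fun a =>
    (List.range (M.length + (M.length + (k + (k + k * M.length))))).map (fun b =>
      halfN M.length k M a b || halfN M.length k M b a))

/-- The characteristic vector of the new modulator. -/
def newChi (k : ℕ) (M : List (List Bool)) : List Bool :=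
  (List.range (M.length + (M.length + (k + (k + k * M.length))))).map (fun a =>
    decide (M.length + M.length ≤ a) && decide (a < M.length + (M.length + k)))

theorem ofFn_eq_map_range {X : Type} (N : ℕ) (f : ℕ → X) :
    List.ofFn (fun i : Fin N => f i) = (List.range N).map f := by
  apply List.ext_getElem
  · simp
  · intro i h1 h2; simp

/-- The new graph. -/
def newGr (n k : ℕ) (H : SimpleGraph (Fin n)) :
    SimpleGraph (Fin (n + (n + (k + (k + k * n))))) := (gr n k H).comap (num n k).symm

/-- The new modulator. -/
def newX (n k : ℕ) : Finset (Fin (n + (n + (k + (k + k * n))))) :=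
  Finset.univ.map (Function.Embedding.trans ⟨fun i : Fin k => vX i, fun i j h => by
    simpa using h⟩ (num n k).toEmbedding)

theorem mem_newX {n k : ℕ} (x : Fin (n + (n + (k + (k + k * n))))) :
    x ∈ newX n k ↔ ∃ i, (num n k).symm x = vX i := by
  unfold newX
  rw [Finset.mem_map]
  constructor
  · rintro ⟨i, -, rfl⟩
    exact ⟨i, by simp⟩
  · rintro ⟨i, hi⟩
    refine ⟨i, Finset.mem_univ _, ?_⟩
    show num n k (vX i) = x
    rw [← hi]; simp

theorem adjMatrix_newGr {n k : ℕ} (H : SimpleGraph (Fin n)) :
    adjMatrix (newGr n k H) = newMat k (adjMatrix H) := by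
  classical
  unfold newMat adjMatrix
  rw [List.length_ofFn, ← ofFn_eq_map_range]
  congr 1
  funext i
  rw [← ofFn_eq_map_range]
  congr 1
  funext j
  obtain ⟨p, rfl⟩ := (num n k).surjective i
  obtain ⟨q, rfl⟩ := (num n k).surjective j
  rw [Bool.eq_iff_iff, decide_eq_true_iff, Bool.or_eq_true]
  have h1 := halfN_iff (k := k) H p q
  have h2 := halfN_iff (k := k) H q p
  unfold adjMatrix at h1 h2
  rw [h1, h2]
  show (gr n k H).Adj ((num n k).symm (num n k p)) ((num n k).symm (num n k q)) ↔ _
  rw [Equiv.symm_apply_apply, Equiv.symm_apply_apply]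
  rfl

theorem chi_newX {n k : ℕ} (H : SimpleGraph (Fin n)) :
    chi (newX n k) = newChi k (adjMatrix H) := by
  unfold newChi chi
  rw [length_adjMatrix, ← ofFn_eq_map_range]
  congr 1
  funext i
  obtain ⟨p, rfl⟩ := (num n k).surjective i
  rw [Bool.eq_iff_iff, decide_eq_true_iff, mem_newX, Equiv.symm_apply_apply, Bool.and_eq_true,
    decide_eq_true_iff, decide_eq_true_iff]
  rcases p with a | a | i | i | ⟨i, u⟩
  · rw [num_K]
    have := a.2
    constructor
    · rintro ⟨i, h⟩; simp at h
    · intro h; omega
  · rw [num_W]
    have := a.2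
    constructor
    · rintro ⟨i, h⟩; simp at h
    · intro h; omega
  · rw [num_X]
    have := i.2
    constructor
    · intro _; omega
    · intro _; exact ⟨i, rfl⟩
  · rw [num_Y]
    constructor
    · rintro ⟨i, h⟩; simp at h
    · intro h; omega
  · rw [num_C]
    constructor
    · rintro ⟨i, h⟩; simp at h
    · intro h; omega

theorem split_newX {n k : ℕ} (H : SimpleGraph (Fin n)) :
    IsSplitModulator (newGr n k H) (newX n k) := by
  refine ⟨{x | ∃ a, (num n k).symm x = vK a},
    {x | ¬ (∃ a, (num n k).symm x = vK a) ∧ ¬ ∃ i, (num n k).symm x = vX i}, ?_, ?_, ?_, ?_⟩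
  · ext x
    simp only [Set.mem_union, Set.mem_ofPred_eq, Set.mem_compl_iff, Finset.mem_coe, mem_newX]
    constructor
    · rintro (⟨a, h⟩ | ⟨-, h⟩)
      · rintro ⟨i, h'⟩; rw [h] at h'; simp at h'
      · exact h
    · intro h
      by_cases h' : ∃ a, (num n k).symm x = vK a
      · exact Or.inl h'
      · exact Or.inr ⟨h', h⟩
  · rw [Set.disjoint_left]
    rintro x h ⟨h', -⟩
    exact h' h
  · rintro x ⟨a, ha⟩ y ⟨b, hb⟩ hxy
    show (gr n k H).Adj ((num n k).symm x) ((num n k).symm y)
    rw [ha, hb]
    left
    show a ≠ b
    rintro rfl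
    exact hxy ((num n k).symm.injective (ha.trans hb.symm))
  · rintro x ⟨hx1, hx2⟩ y ⟨hy1, hy2⟩ -
    show ¬ (gr n k H).Adj ((num n k).symm x) ((num n k).symm y)
    revert hx1 hx2 hy1 hy2
    generalize (num n k).symm x = p
    generalize (num n k).symm y = q
    intro hx1 hx2 hy1 hy2
    rcases p with a | a | i | i | p
    · exact absurd ⟨a, rfl⟩ hx1
    · rcases q with b | b | j | j | q
      · exact absurd ⟨b, rfl⟩ hy1
      · simp [gr, half]
      · exact absurd ⟨j, rfl⟩ hy2
      · simp [gr, half]
      · simp [gr, half]
    · exact absurd ⟨i, rfl⟩ hx2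
    · rcases q with b | b | j | j | q
      · exact absurd ⟨b, rfl⟩ hy1
      · simp [gr, half]
      · exact absurd ⟨j, rfl⟩ hy2
      · simp [gr, half]
      · simp [gr, half]
    · rcases q with b | b | j | j | q
      · exact absurd ⟨b, rfl⟩ hy1
      · simp [gr, half]
      · exact absurd ⟨j, rfl⟩ hy2
      · simp [gr, half]
      · simp [gr, half]

/-- From polynomial-time functions to machines. -/
theorem PTF.machine {α β : Type} [Enc α] [Enc β] {f : α → β} (hf : PTF f) :
    ∃ (M : TM2ComputableAux Bool Bool) (p : Polynomial ℕ), ∀ a,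
      Outputs M (Enc.enc a).enc (Enc.enc (f a)).enc (p.eval (Enc.enc a).enc.length) := by
  obtain ⟨c⟩ := hf.tm2
  exact ⟨c.toTM2ComputableAux, c.time, fun a => ⟨c.outputsFun a⟩⟩

theorem ptf_new : PTF (fun p : ℕ × List (List Bool) =>
    (p.1, (newChi p.1 p.2, newMat p.1 p.2))) := by
  unfold newChi newMat halfN adjM
  fun_prop

theorem hardTwo : HardTwo := by
  obtain ⟨M, p, hM⟩ := PTF.machine ptf_new
  refine ⟨M, p, fun n k H => ⟨_, newGr n k H, newX n k, split_newX H, ?_, ?_, ?_⟩⟩
  · unfold newX
    rw [Finset.card_map, Finset.card_univ, Fintype.card_fin]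
  · rw [← main_iff]
    exact dom_comap (num n k) (gr n k H) 2 k
  · have := hM (k, adjMatrix H)
    rw [encDS_eq, encRDS_eq, adjMatrix_newGr, chi_newX H]
    exact this

end Pool.Agent.MP918064
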