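import Pool.Agent.Work.MP_918064_lc.HardTwo

/-!
# For `r = 2`: reduction to Dominating Set
-/

set_option autoImplicit false

namespace Pool.Agent.MP918064

open Pool.Agent.PT Turing

/-- The adjacency matrix of the square of the graph restricted to the non-isolated vertices. -/
def sqMat (M : List (List Bool)) : List (List Bool) :=
  (nonIso M).map (fun u => (nonIso M).map (fun v => decide (u ≠ v) && decide (v ∈ ball M u 2)))

/-- The number of isolated vertices. -/
def numIso (M : List (List Bool)) : ℕ := M.length - (nonIso M).length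

/-- The output instance. -/
def memOut (a : Inp) : ℕ × List (List Bool) :=
  if a.1 < numIso a.2.2 then (0, [[false]]) else
    if (a.2.1.filter (fun b => b)).length < a.1 - numIso a.2.2 then (0, []) else
      (a.1 - numIso a.2.2, sqMat a.2.2)

theorem ptf_memOut : PTF memOut := by
  have h1 := ptf_nonIso
  have h2 : PTF (fun q : (List (List Bool) × ℕ) × ℕ => ball q.1.1 q.1.2 2) :=
    (ptf_ball 2).comp PTF.fst
  have h3 : PTF sqMat := by unfold sqMat; fun_prop
  unfold memOut numIso
  fun_prop

theorem length_chi_filter {n : ℕ} (X : Finset (Fin n)) :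
    ((chi X).filter (fun b => b)).length = X.card := by
  unfold chi
  rw [List.ofFn_eq_map, List.filter_map, List.length_map,
    ← List.toFinset_card_of_nodup ((List.nodup_finRange n).filter _)]
  congr 1
  ext x
  simp

section
variable {n : ℕ} (G : SimpleGraph (Fin n))

theorem numIso_eq [DecidablePred (fun v => ¬ NonIso G v)] : numIso (adjMatrix G) =
    (Finset.univ.filter (fun v => ¬ NonIso G v)).card := by
  classical
  unfold numIso
  rw [length_adjMatrix, card_iso]
  congr 1
  ext x; simp

theorem iso_sub {r : ℕ} {T : Finset (Fin n)} (hT : IsRDom G r T) {v : Fin n}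
    (hv : ¬ NonIso G v) : v ∈ T := by
  obtain ⟨s, hs, h⟩ := hT v
  rwa [near_iso G (r := r) h hv]

/-- The vertices of the output graph. -/
noncomputable def vtx (i : Fin (nonIso (adjMatrix G)).length) : Fin n :=
  ⟨(nonIso (adjMatrix G)).get i, ((mem_nonIso G).1 (List.get_mem _ i)).1⟩

theorem vtx_inj : Function.Injective (vtx G) := by
  intro i j h
  have h1 : (nonIso (adjMatrix G)).get i = (nonIso (adjMatrix G)).get j := congrArg Fin.val h
  exact (List.nodup_iff_injective_get.1 (nodup_nonIso _)) h1

theorem vtx_nonIso (i : Fin (nonIso (adjMatrix G)).length) : NonIso G (vtx G i) :=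
  ((mem_nonIso G).1 (List.get_mem _ i)).2

theorem exists_vtx {v : Fin n} (hv : NonIso G v) : ∃ i, vtx G i = v := by
  obtain ⟨i, hi⟩ := List.get_of_mem ((mem_nonIso G).2 ⟨v.2, hv⟩)
  exact ⟨i, Fin.ext hi⟩

/-- The output graph. -/
def sqGr : SimpleGraph (Fin (nonIso (adjMatrix G)).length) where
  Adj i j := i ≠ j ∧ Near G 2 (vtx G i) (vtx G j)
  symm := ⟨fun i j h => ⟨h.1.symm, (near_comm G).1 h.2⟩⟩
  loopless := ⟨fun i h => h.1 rfl⟩

theorem adjMatrix_sqGr : adjMatrix (sqGr G) = sqMat (adjMatrix G) := by
  classical
  unfold sqMat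
  have h1 : ∀ {X : Type} (L : List ℕ) (f : ℕ → X),
      L.map f = List.ofFn (fun i : Fin L.length => f (L.get i)) := by
    intro X L f
    apply List.ext_getElem
    · simp
    · intro i h1 h2; simp
  rw [h1]
  show List.ofFn (fun i => List.ofFn (fun j => decide ((sqGr G).Adj i j))) = _
  congr 1
  funext i
  rw [h1]
  congr 1
  funext j
  rw [Bool.eq_iff_iff, decide_eq_true_iff, Bool.and_eq_true, decide_eq_true_iff,
    decide_eq_true_iff]
  have h4 := mem_ball G (r := 2) (v := (vtx G j : ℕ)) (vtx G i).2
  show _ ↔ ((vtx G i : Fin n) : ℕ) ≠ (vtx G j : ℕ) ∧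
    ((vtx G j : Fin n) : ℕ) ∈ ball (adjMatrix G) (vtx G i : ℕ) 2
  rw [h4]
  constructor
  · rintro ⟨h2, h3⟩
    refine ⟨fun h => h2 (vtx_inj G (Fin.ext h)), (vtx G j).2, h3⟩
  · rintro ⟨h2, _, h3⟩
    exact ⟨fun h => h2 (by rw [h]), h3⟩

theorem sq_iff (l : ℕ) (hl : numIso (adjMatrix G) ≤ l) :
    (∃ S : Finset (Fin (nonIso (adjMatrix G)).length),
      S.card ≤ l - numIso (adjMatrix G) ∧ IsRDom (sqGr G) 1 S) ↔
      ∃ T : Finset (Fin n), T.card ≤ l ∧ IsRDom G 2 T := by
  classical
  constructor
  · rintro ⟨S, h1, h2⟩
    refine ⟨S.image (vtx G) ∪ Finset.univ.filter (fun v => ¬ NonIso G v), ?_, fun v => ?_⟩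
    · refine (Finset.card_union_le _ _).trans ?_
      rw [← numIso_eq G]
      have := Finset.card_image_le (s := S) (f := vtx G)
      omega
    · by_cases hv : NonIso G v
      · obtain ⟨i, rfl⟩ := exists_vtx G hv
        obtain ⟨j, hj, h⟩ := h2 i
        refine ⟨vtx G j, Finset.mem_union_left _ (Finset.mem_image_of_mem _ hj), ?_⟩
        rcases (near_one _).1 h with h | h
        · rw [h]; exact near_refl G 2 _
        · exact h.2
      · exact ⟨v, Finset.mem_union_right _ (by simp [hv]), near_refl G 2 v⟩
  · rintro ⟨T, h1, h2⟩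
    refine ⟨Finset.univ.filter (fun i => vtx G i ∈ T), ?_, fun i => ?_⟩
    · have h3 : (Finset.univ.filter (fun i => vtx G i ∈ T)).card ≤
          (T.filter (fun v => NonIso G v)).card := by
        refine Finset.card_le_card_of_injOn (vtx G) (fun i hi => ?_)
          (fun i _ j _ h => vtx_inj G h)
        have : vtx G i ∈ T := by simpa using hi
        simp [this, vtx_nonIso G i]
      have h4 : numIso (adjMatrix G) ≤ (T.filter (fun v => ¬ NonIso G v)).card := by
        rw [numIso_eq G]
        refine Finset.card_le_card (fun v hv => ?_)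
        have hv' : ¬ NonIso G v := by simpa using hv
        rw [Finset.mem_filter]
        exact ⟨iso_sub G h2 hv', hv'⟩
      have h5 := Finset.card_filter_add_card_filter_not (s := T) (fun v => NonIso G v)
      omega
    · obtain ⟨t, ht, h⟩ := h2 (vtx G i)
      have htn : NonIso G t := Near.nonIso G (r := 2) h (vtx_nonIso G i)
      obtain ⟨j, rfl⟩ := exists_vtx G htn
      refine ⟨j, by simp [ht], (near_one _).2 ?_⟩
      by_cases e : i = j
      · exact Or.inl e
      · exact Or.inr ⟨e, h⟩

end

theorem memberTwo : MemberTwo := by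
  classical
  obtain ⟨M, p, hM⟩ := PTF.machine ptf_memOut
  refine ⟨M, p, fun n l G X hX => ?_⟩
  have hout := hM (l, (chi X, adjMatrix G))
  rw [encRDS_eq]
  by_cases h1 : l < numIso (adjMatrix G)
  · -- no instance
    refine ⟨1, 0, ⊥, Nat.zero_le _, ?_, ?_⟩
    · constructor
      · rintro ⟨S, hS, h⟩
        obtain ⟨s, hs, -⟩ := h 0
        have : S = ∅ := Finset.card_eq_zero.1 (by omega)
        rw [this] at hs
        simp at hs
      · rintro ⟨T, hT, h⟩
        exfalso
        rw [numIso_eq G] at h1
        have := Finset.card_le_card (s := Finset.univ.filter (fun v => ¬ NonIso G v)) (t := T)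
          (fun v hv => iso_sub G h (by simpa using hv))
        omega
    · rw [encDS_eq]
      have e : memOut (l, (chi X, adjMatrix G)) = (0, [[false]]) := by
        unfold memOut; rw [if_pos h1]
      rw [e] at hout
      have e2 : adjMatrix (⊥ : SimpleGraph (Fin 1)) = [[false]] := by
        simp [adjMatrix]
      rw [e2]
      exact hout
  · by_cases h2 : X.card < l - numIso (adjMatrix G)
    · refine ⟨0, 0, ⊥, Nat.zero_le _, ?_, ?_⟩
      · constructor
        · rintro -
          obtain ⟨S, hS, h⟩ := two_dom_of_modulator hX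
          refine ⟨S ∪ Finset.univ.filter (fun v => ¬ NonIso G v), ?_, fun v => ?_⟩
          · refine (Finset.card_union_le _ _).trans ?_
            rw [← numIso_eq G]
            omega
          · by_cases hv : NonIso G v
            · obtain ⟨s, hs, hs'⟩ := h v hv
              exact ⟨s, Finset.mem_union_left _ hs, hs'⟩
            · exact ⟨v, Finset.mem_union_right _ (by simp [hv]), near_refl G 2 v⟩
        · rintro -
          exact ⟨∅, by simp, fun v => v.elim0⟩
      · rw [encDS_eq]
        have e : memOut (l, (chi X, adjMatrix G)) = (0, []) := by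
          unfold memOut
          rw [if_neg h1]
          show (if ((chi X).filter (fun b => b)).length < l - numIso (adjMatrix G) then
            ((0 : ℕ), ([] : List (List Bool))) else _) = _
          rw [length_chi_filter, if_pos h2]
        rw [e] at hout
        have e2 : adjMatrix (⊥ : SimpleGraph (Fin 0)) = [] := by
          simp [adjMatrix]
        rw [e2]
        exact hout
    · refine ⟨_, l - numIso (adjMatrix G), sqGr G, by omega, sq_iff G l (by omega), ?_⟩
      rw [encDS_eq, adjMatrix_sqGr]
      have e : memOut (l, (chi X, adjMatrix G)) =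
          (l - numIso (adjMatrix G), sqMat (adjMatrix G)) := by
        unfold memOut
        rw [if_neg h1]
        show (if ((chi X).filter (fun b => b)).length < l - numIso (adjMatrix G) then _ else
          (l - numIso (adjMatrix G), sqMat (adjMatrix G))) = _
        rw [length_chi_filter, if_neg h2]
      rw [e] at hout
      exact hout

end Pool.Agent.MP918064
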