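import Pool.Agent.Work.MP_918064_lc.Correct

/-!
# For `r ≥ 3` the problem is fixed-parameter tractable
-/

set_option autoImplicit false

namespace Pool.Agent.MP918064

open Pool.Agent.PT Turing

/-! ### Codes -/

theorem encBit_eq (b : Bool) : encBit b = (Enc.enc b).enc := by cases b <;> rfl

theorem encPair_eq {α β γ δ : Type} [Enc γ] [Enc δ] {e : α → List Bool} {e' : β → List Bool}
    {f : α → γ} {f' : β → δ} (h : ∀ a, e a = (Enc.enc (f a)).enc)
    (h' : ∀ a, e' a = (Enc.enc (f' a)).enc) (p : α × β) :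
    encPair e e' p = (Enc.enc (f p.1, f' p.2)).enc := by
  rw [encPair, h, h']; rfl

theorem encList_eq {α : Type} [Enc α] {e : α → List Bool}
    (h : ∀ a, e a = (Enc.enc a).enc) (l : List α) :
    encList e l = (Enc.enc l).enc := by
  induction l with
  | nil => rfl
  | cons a l ih => rw [encList, h, ih]; rfl

theorem encUnary_eq (n : ℕ) : encUnary n = (Enc.enc n).enc := by
  induction n with
  | zero => rfl
  | succ n ih => rw [encUnary, ih]; rfl

theorem encDS_eq {n : ℕ} (G : SimpleGraph (Fin n)) (k : ℕ) :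
    encDS G k = (Enc.enc (k, adjMatrix G)).enc :=
  encPair_eq (f := fun k : ℕ => k) (f' := fun l : List (List Bool) => l) encUnary_eq
    (fun l => encList_eq (fun l => encList_eq encBit_eq l) l) _

/-- The characteristic vector. -/
def chi {n : ℕ} (X : Finset (Fin n)) : List Bool := List.ofFn (fun i => decide (i ∈ X))

theorem encRDS_eq {n : ℕ} (G : SimpleGraph (Fin n)) (X : Finset (Fin n)) (l : ℕ) :
    encRDS G X l = (Enc.enc (l, (chi X, adjMatrix G))).enc :=
  encPair_eq (f := fun k : ℕ => k) (f' := fun p : List Bool × List (List Bool) => p) encUnary_eq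
    (fun p => encPair_eq (f := fun l : List Bool => l) (f' := fun l : List (List Bool) => l)
      (fun l => encList_eq encBit_eq l) (fun l => encList_eq (fun l => encList_eq encBit_eq l) l)
      p) _

theorem outputs_mono {M : TM2ComputableAux Bool Bool} {x y : List Bool} {t t' : ℕ}
    (h : Outputs M x y t) (htt' : t ≤ t') : Outputs M x y t' := by
  obtain ⟨⟨h1, h2⟩⟩ := h
  exact ⟨⟨h1, h2.trans htt'⟩⟩

theorem sz_list_bool_le (l : List Bool) : sz l ≤ 4 * l.length + 1 := by
  induction l with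
  | nil => simp [sz_nil]
  | cons b l ih =>
    rw [sz_cons, List.length_cons]
    have := sz_bool b
    omega

theorem sz_adjMatrix_le {n : ℕ} (G : SimpleGraph (Fin n)) :
    sz (adjMatrix G) ≤ n * (4 * n + 2) + 1 := by
  classical
  have h2 : ∀ (l : List (List Bool)), (∀ r ∈ l, r.length = n) →
      sz l ≤ l.length * (4 * n + 2) + 1 := by
    intro l
    induction l with
    | nil => intro _; simp [sz_nil]
    | cons r l ih =>
      intro h
      rw [sz_cons, List.length_cons]
      have e1 := ih (fun r hr => h r (by simp [hr]))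
      have e2 := sz_list_bool_le r
      rw [h r (by simp)] at e2
      rw [Nat.add_mul]
      omega
  have h3 := h2 (adjMatrix G) (fun r hr => by
    unfold adjMatrix at hr
    rw [List.mem_ofFn] at hr
    obtain ⟨i, rfl⟩ := hr
    simp)
  rwa [length_adjMatrix] at h3

theorem sz_inp_le {n : ℕ} (G : SimpleGraph (Fin n)) (X : Finset (Fin n)) (l : ℕ) :
    sz (l, (chi X, adjMatrix G)) ≤ 14 * (n + l + 1) ^ 2 := by
  rw [sz_pair, sz_pair, sz_nat]
  have h1 := sz_adjMatrix_le G
  have h2 := sz_list_bool_le (chi X)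
  have h3 : (chi X).length = n := by simp [chi]
  rw [h3] at h2
  nlinarith

theorem fpt_three {r : ℕ} (hr : 3 ≤ r) : FPT r := by
  classical
  obtain ⟨B, ⟨q, hB⟩, hT⟩ := TimeF.fpt (ptf_answer r)
    (e := fun a : Inp => (reps r a.2.2).length)
    ((ptf_reps r).comp (PTF.snd.comp PTF.snd)).length
  obtain ⟨M, hM⟩ := hT.tm2
  refine ⟨M, 20 ^ (q + 1) , fun n l G X hX => ?_⟩
  have h1 := hM (l, (chi X, adjMatrix G))
  beta_reduce at h1
  have hans : answer r ((l, (chi X, adjMatrix G)),
      2 ^ (reps r (l, (chi X, adjMatrix G)).2.2).length) =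
        decide (∃ S : Finset (Fin n), S.card ≤ l ∧ IsRDom G r S) := by
    rw [Bool.eq_iff_iff, decide_eq_true_iff]
    exact answer_correct G r l (chi X)
  rw [hans] at h1
  unfold Outputs
  rw [encRDS_eq, encBit_eq]
  refine outputs_mono (M := M) h1 ?_
  -- the time bound
  set k := X.card with hk
  have hreps := length_reps_le G hX hr
  rw [← hk] at hreps
  set w := 2 ^ (reps r (adjMatrix G)).length with hw
  have h2 := hB ((l, (chi X, adjMatrix G)), w)
  have h3 := sz_inp_le G X l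
  have hw1 : 1 ≤ w := Nat.one_le_two_pow
  have hN1 : 1 ≤ (n + l + 1) ^ 2 := Nat.one_le_pow _ _ (by omega)
  have h4 : sz ((l, (chi X, adjMatrix G)), w) + 2 ≤ 20 * w * (n + l + 1) ^ 2 := by
    rw [sz_pair, sz_nat]
    nlinarith
  have h5 : B ((l, (chi X, adjMatrix G)), w) + 1 ≤ (20 * w * (n + l + 1) ^ 2) ^ (q + 1) := by
    have e1 := h2.trans (Nat.pow_le_pow_left h4 q)
    have e2 : 2 ≤ 20 * w * (n + l + 1) ^ 2 := by nlinarith
    have e3 : 1 ≤ (20 * w * (n + l + 1) ^ 2) ^ q := Nat.one_le_pow _ _ (by omega)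
    calc _ ≤ (20 * w * (n + l + 1) ^ 2) ^ q * 2 := by omega
      _ ≤ (20 * w * (n + l + 1) ^ 2) ^ q * (20 * w * (n + l + 1) ^ 2) :=
          Nat.mul_le_mul_left _ e2
      _ = _ := (pow_succ _ _).symm
  refine h5.trans ?_
  rw [mul_pow, mul_pow, ← pow_mul, ← pow_mul]
  have e7 : 2 * (q + 1) + 2 ≤ 20 ^ (q + 1) := by
    have : ∀ m : ℕ, 2 * (m + 1) + 2 ≤ 20 ^ (m + 1) := by
      intro m
      induction m with
      | zero => norm_num
      | succ m ih => rw [pow_succ]; omega
    exact this q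
  have e8 : (reps r (adjMatrix G)).length * (q + 1) ≤ 2 ^ (20 ^ (q + 1) * (k + 1)) := by
    have f1 : 4 ^ k + 2 ^ k + k ≤ 2 ^ (2 * k + 2) := by
      have g1 : (4 : ℕ) ^ k = 2 ^ (2 * k) := by rw [pow_mul]; norm_num
      have g2 : (2 : ℕ) ^ k ≤ 2 ^ (2 * k) := Nat.pow_le_pow_right (by norm_num) (by omega)
      have g3 : k < 2 ^ k := Nat.lt_two_pow_self
      rw [g1, pow_add]
      omega
    have f2 : q + 1 ≤ 2 ^ (q + 1) := Nat.lt_two_pow_self.le
    calc _ ≤ 2 ^ (2 * k + 2) * 2 ^ (q + 1) := Nat.mul_le_mul (hreps.trans f1) f2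
      _ = 2 ^ (2 * k + 2 + (q + 1)) := (pow_add _ _ _).symm
      _ ≤ 2 ^ (20 ^ (q + 1) * (k + 1)) := by
        refine Nat.pow_le_pow_right (by norm_num) ?_
        have : 20 ^ (q + 1) * (k + 1) = 20 ^ (q + 1) * k + 20 ^ (q + 1) := by ring
        have g : 2 * k ≤ 20 ^ (q + 1) * k := Nat.mul_le_mul_right _ (by omega)
        omega
  have e9 : 2 ^ ((reps r (adjMatrix G)).length * (q + 1)) ≤ 2 ^ 2 ^ (20 ^ (q + 1) * (k + 1)) :=
    Nat.pow_le_pow_right (by norm_num) e8
  have e10 : (n + l + 1) ^ (2 * (q + 1)) ≤ (n + l + 1) ^ (20 ^ (q + 1)) :=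
    Nat.pow_le_pow_right (by omega) (by omega)
  exact Nat.mul_le_mul (Nat.mul_le_mul_left _ e9) e10

end Pool.Agent.MP918064
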